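import Mathlib
import Pool.Agent.K4H75.PG.Proj

/-!
# MP_259931_al

For every prime `q ≡ 1 (mod 11)` with `q ≥ 2 ^ 22` the group `PGL(11, ZMod q)` is a finite
insoluble group which is not simple, its soluble radical is trivial, and its soluble graph has two
vertices, in the same connected component, at distance at least four.
-/

set_option autoImplicit false

namespace Pool.Agent.Results.MP_259931_al.ProjectiveLinearEleven

open Module Pool.Agent.K4H75.PG
open scoped MatrixGroups

/-- The soluble radical: the subgroup generated by all soluble normal subgroups (for a finite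
group this is the largest soluble normal subgroup). -/
def solubleRadical (G : Type) [Group G] : Subgroup G :=
  sSup {N : Subgroup G | N.Normal ∧ Group.IsSolvable N}

/-- The soluble graph: the vertices are the elements outside the soluble radical, and two
distinct vertices are adjacent when they generate a soluble subgroup. -/
def solubleGraph (G : Type) [Group G] : SimpleGraph {g : G // g ∉ solubleRadical G} where
  Adj x y := x ≠ y ∧ Group.IsSolvable (Subgroup.closure ({x.1, y.1} : Set G))
  symm := ⟨by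
    rintro x y ⟨h1, h2⟩
    refine ⟨h1.symm, ?_⟩
    rw [Set.pair_comm]
    exact h2⟩
  loopless := ⟨fun x h => h.1 rfl⟩

theorem walk_le_three {G : Type} [Group G] {u v : {g : G // g ∉ solubleRadical G}}
    (w : (solubleGraph G).Walk u v) (h : w.length ≤ 3) :
    ∃ y z : {g : G // g ∉ solubleRadical G},
      SolPair u.1 y.1 ∧ SolPair y.1 z.1 ∧ SolPair z.1 v.1 := by
  cases w with
  | nil => exact ⟨u, u, solPair_self _, solPair_self _, solPair_self _⟩
  | cons h1 w =>
    cases w with
    | nil => exact ⟨v, v, h1.2, solPair_self _, solPair_self _⟩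
    | cons h2 w =>
      cases w with
      | nil => exact ⟨_, v, h1.2, h2.2, solPair_self _⟩
      | cons h3 w =>
        cases w with
        | nil => exact ⟨_, _, h1.2, h2.2, h3.2⟩
        | cons h4 w =>
          exfalso
          simp only [SimpleGraph.Walk.length_cons] at h
          omega

/-- the passage from chains to the graph -/
theorem of_chain {P : Type} [Group P] {X X' : P} (hX : X ≠ 1) (hX' : X' ≠ 1)
    (hno : ∀ y z : P, y ≠ 1 → z ≠ 1 → SolPair X y → SolPair y z → SolPair z X' → False)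
    (hch : Relation.ReflTransGen Link X X') :
    ¬ Group.IsSolvable P ∧ solubleRadical P = ⊥ ∧
      (∃ x y, (solubleGraph P).Reachable x y ∧ 4 ≤ (solubleGraph P).dist x y) ∧
      4 ≤ (solubleGraph P).ediam := by
  have hinsol : ¬ Group.IsSolvable P := by
    intro h
    have h1 : ∀ a b : P, SolPair a b := by
      intro a b
      unfold SolPair
      exact Group.isSolvable_of_isSolvable_injective (Subgroup.subtype_injective _)
    exact hno X X hX hX (h1 _ _) (h1 _ _) (h1 _ _)
  have hrad : solubleRadical P = ⊥ := by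
    rw [solubleRadical, sSup_eq_bot]
    rintro N ⟨hN1, hN2⟩
    rw [Subgroup.eq_bot_iff_forall]
    intro t ht
    by_contra ht1
    exact hno t t ht1 ht1 (solPair_of_mem_normal hN1 hN2 X ht) (solPair_self t)
      (solPair_symm (solPair_of_mem_normal hN1 hN2 X' ht))
  have hvert : ∀ g : P, g ≠ 1 → g ∉ solubleRadical P := by
    intro g hg1 h
    rw [hrad, Subgroup.mem_bot] at h
    exact hg1 h
  have hvert' : ∀ g : {g : P // g ∉ solubleRadical P}, g.1 ≠ 1 := by
    intro g h
    apply g.2
    rw [h]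
    exact Subgroup.one_mem _
  let u : {g : P // g ∉ solubleRadical P} := ⟨X, hvert X hX⟩
  let v : {g : P // g ∉ solubleRadical P} := ⟨X', hvert X' hX'⟩
  have hR : ∀ b : P, Relation.ReflTransGen Link X b →
      ∀ w : {g : P // g ∉ solubleRadical P}, w.1 = b → (solubleGraph P).Reachable u w := by
    intro b hb
    induction hb with
    | refl =>
      intro w hw
      have : w = u := Subtype.ext hw
      rw [this]
    | @tail a b _ hab ih =>
      intro w hw
      have h1 := ih ⟨a, hvert a hab.1⟩ rfl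
      by_cases hgw : (⟨a, hvert a hab.1⟩ : {g : P // g ∉ solubleRadical P}) = w
      · rw [hgw] at h1
        exact h1
      · have h2 : SolPair a w.1 := by
          rw [hw]
          exact hab.2.2
        exact h1.trans (SimpleGraph.Adj.reachable ⟨hgw, h2⟩)
  have hRuv : (solubleGraph P).Reachable u v := hR _ hch v rfl
  have hdist : 4 ≤ (solubleGraph P).dist u v := by
    by_contra hlt
    obtain ⟨w, hw⟩ := hRuv.exists_walk_length_eq_dist
    obtain ⟨y, z, h1, h2, h3⟩ := walk_le_three w (by omega)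
    exact hno y.1 z.1 (hvert' y) (hvert' z) h1 h2 h3
  refine ⟨hinsol, hrad, ⟨u, v, hRuv, hdist⟩, ?_⟩
  refine le_trans ?_ (SimpleGraph.edist_le_ediam (u := u) (v := v))
  rw [← hRuv.coe_dist_eq_edist]
  exact_mod_cast hdist

theorem geom_mod (q : ℕ) (hq : q % 11 = 1) : (∑ i ∈ Finset.range 11, q ^ i) % 121 = 11 := by
  have h1 : ∀ r : ℕ, r < 121 → r % 11 = 1 → (∑ i ∈ Finset.range 11, r ^ i) % 121 = 11 := by
    intro r hr hr1
    obtain ⟨t, ht⟩ : ∃ t, r = 11 * t + 1 := ⟨r / 11, by omega⟩
    have ht' : t < 11 := by omega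
    subst ht
    interval_cases t <;> decide
  have h2 : (∑ i ∈ Finset.range 11, q ^ i) ≡ (∑ i ∈ Finset.range 11, (q % 121) ^ i) [MOD 121] := by
    have : ∀ n : ℕ, (∑ i ∈ Finset.range n, q ^ i) ≡ (∑ i ∈ Finset.range n, (q % 121) ^ i)
        [MOD 121] := by
      intro n
      induction n with
      | zero => rfl
      | succ n ih =>
        rw [Finset.sum_range_succ, Finset.sum_range_succ]
        exact ih.add ((Nat.mod_modEq q 121).symm.pow n)
    exact this 11
  rw [h2, h1 (q % 121) (Nat.mod_lt _ (by norm_num)) (by omega)]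

/-- the element of the Singer cycle -/
theorem exists_TL (q : ℕ) [hqp : Fact q.Prime] (hq : q % 11 = 1) :
    ∃ x : (Module.End (ZMod q) (GaloisField q 11))ˣ, TL x := by
  have hK : finrank (ZMod q) (GaloisField q 11) = 11 := GaloisField.finrank q (by norm_num)
  have hq2 := hqp.out.two_le
  have : Finite (GaloisField q 11) := Module.finite_of_finite (ZMod q)
  have : Fintype (GaloisField q 11) := Fintype.ofFinite _
  set Φ := ∑ i ∈ Finset.range 11, q ^ i with hΦ
  have h1 := geom_mod q hq
  rw [← hΦ] at h1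
  obtain ⟨m, hm⟩ : ∃ m, Φ = 11 * m := ⟨Φ / 11, by omega⟩
  have hm11 : ¬ 11 ∣ m := by
    rintro ⟨t, ht⟩
    omega
  have hm1 : m ≠ 1 := by
    intro h
    have h2 : 12 ≤ Φ := by
      have h3 : ∑ i ∈ Finset.range 11, 2 ^ i ≤ Φ := by
        apply Finset.sum_le_sum
        intro i _
        exact Nat.pow_le_pow_left hq2 i
      have h4 : ∑ i ∈ Finset.range 11, 2 ^ i = 2047 := by decide
      omega
    omega
  set s := m.minFac with hs
  have hsp : s.Prime := Nat.minFac_prime hm1
  have hsm : s ∣ m := Nat.minFac_dvd m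
  have hs11 : s ≠ 11 := by
    intro h
    rw [h] at hsm
    exact hm11 hsm
  have hsΦ : s ∣ Φ := hm ▸ Dvd.dvd.mul_left hsm 11
  have hgeom : Φ * (q - 1) = q ^ 11 - 1 := geom_sum_mul_of_one_le (by omega) 11
  have hcardK : Nat.card (GaloisField q 11)ˣ = q ^ 11 - 1 := by
    rw [Nat.card_units, GaloisField.card q 11 (by norm_num)]
  have : Fact s.Prime := ⟨hsp⟩
  obtain ⟨ξ, hξ⟩ := exists_prime_orderOf_dvd_card' (G := (GaloisField q 11)ˣ) s (by
    rw [hcardK, ← hgeom]
    exact Dvd.dvd.mul_right hsΦ _)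
  have hξs : (ξ : GaloisField q 11) ^ s = 1 := by
    have h2 := pow_orderOf_eq_one ξ
    rw [hξ] at h2
    have h3 := congrArg Units.val h2
    simpa using h3
  have hndvd : ¬ s ∣ q - 1 := by
    intro h
    have h2 : Φ ≡ 11 [MOD s] := by
      have h3 : q ≡ 1 [MOD s] := by
        exact ((Nat.modEq_iff_dvd' (by omega)).mpr h).symm
      have h4 : ∀ n : ℕ, (∑ i ∈ Finset.range n, q ^ i) ≡ n [MOD s] := by
        intro n
        induction n with
        | zero => rfl
        | succ n ih =>
          rw [Finset.sum_range_succ]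
          have h5 := ih.add (h3.pow n)
          rwa [one_pow] at h5
      exact h4 11
    have h3 : 11 ≡ 0 [MOD s] := h2.symm.trans (Nat.modEq_zero_iff_dvd.mpr hsΦ)
    have h4 : s ∣ 11 := Nat.modEq_zero_iff_dvd.mp h3
    exact hs11 ((Nat.prime_dvd_prime_iff_eq hsp (by norm_num)).mp h4)
  have hξF : ∀ a : ZMod q, algebraMap (ZMod q) (GaloisField q 11) a ≠ ξ := by
    intro a ha
    apply hndvd
    have ha0 : a ≠ 0 := by
      rintro rfl
      rw [map_zero] at ha
      exact ξ.ne_zero ha.symm
    have h2 : ξ ^ (q - 1) = 1 := by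
      apply Units.ext
      rw [Units.val_pow_eq_pow_val, ← ha, ← map_pow, ZMod.pow_card_sub_one_eq_one ha0, map_one]
      rfl
    rw [← hξ]
    exact orderOf_dvd_of_pow_eq_one h2
  refine ⟨mu (ξ : GaloisField q 11) ξ.ne_zero, (ξ : GaloisField q 11), s, hξF, hsp,
    prime_mod hK hξF hsp hs11 ⟨1, ?_⟩, ⟨1, ?_⟩, fun v => rfl⟩
  · rw [map_one, hξs]
  · rw [map_one, hξs]

theorem main (q : ℕ) (hqp : q.Prime) (hq : q % 11 = 1) (hql : 2 ^ 22 ≤ q) :
    Finite (Matrix.ProjGenLinGroup (Fin 11) (ZMod q)) ∧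
      ¬ IsSimpleGroup (Matrix.ProjGenLinGroup (Fin 11) (ZMod q)) ∧
      ¬ Group.IsSolvable (Matrix.ProjGenLinGroup (Fin 11) (ZMod q)) ∧
      solubleRadical (Matrix.ProjGenLinGroup (Fin 11) (ZMod q)) = ⊥ ∧
      (∃ x y, (solubleGraph (Matrix.ProjGenLinGroup (Fin 11) (ZMod q))).Reachable x y ∧
        4 ≤ (solubleGraph (Matrix.ProjGenLinGroup (Fin 11) (ZMod q))).dist x y) ∧
      4 ≤ (solubleGraph (Matrix.ProjGenLinGroup (Fin 11) (ZMod q))).ediam := by
  have hfact : Fact q.Prime := ⟨hqp⟩
  have hK : finrank (ZMod q) (GaloisField q 11) = 11 := GaloisField.finrank q (by norm_num)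
  have hfinK : Finite (GaloisField q 11) := Module.finite_of_finite (ZMod q)
  have hfinP : Finite (Matrix.ProjGenLinGroup (Fin 11) (ZMod q)) :=
    Finite.of_surjective _ Matrix.ProjGenLinGroup.mk_surjective
  -- an eleventh root of unity
  obtain ⟨η, h1, h2⟩ : ∃ η : ZMod q, η ^ 11 = 1 ∧ η ≠ 1 := by
    have : Fact (Nat.Prime 11) := ⟨by norm_num⟩
    obtain ⟨ξ, hξ⟩ := exists_prime_orderOf_dvd_card' (G := (ZMod q)ˣ) 11 (by
      rw [Nat.card_eq_fintype_card, ZMod.card_units]
      omega)
    refine ⟨ξ, ?_, ?_⟩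
    · have h2 := pow_orderOf_eq_one ξ
      rw [hξ] at h2
      have h3 := congrArg Units.val h2
      simpa using h3
    · intro h
      have h3 : ξ = 1 := Units.ext h
      rw [h3, orderOf_one] at hξ
      norm_num at hξ
  have h2F : (2 : ZMod q) ≠ 0 := by
    intro h
    have h3 : ((2 : ℕ) : ZMod q) = 0 := by exact_mod_cast h
    rw [ZMod.natCast_eq_zero_iff] at h3
    have := Nat.le_of_dvd (by norm_num) h3
    have : (2 : ℕ) ^ 22 = 4194304 := by norm_num
    omega
  obtain ⟨σ, hσ⟩ := exists_good hK h1 h2 (by rw [Nat.card_zmod]; exact hql)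
  obtain ⟨x, hx⟩ := exists_TL q hq
  -- the projection
  let e : GaloisField q 11 ≃ₗ[ZMod q] (Fin 11 → ZMod q) := LinearEquiv.ofFinrankEq _ _ (by
    rw [hK, Module.finrank_fintype_fun_eq_card, Fintype.card_fin])
  let e2 : Module.End (ZMod q) (GaloisField q 11) ≃ₐ[ZMod q] Matrix (Fin 11) (Fin 11) (ZMod q) :=
    (e.conjAlgEquiv (ZMod q)).trans (LinearMap.toMatrixAlgEquiv' (R := ZMod q))
  let ψ : (Module.End (ZMod q) (GaloisField q 11))ˣ →*
      Matrix.ProjGenLinGroup (Fin 11) (ZMod q) :=
    Matrix.ProjGenLinGroup.mk.comp (Units.mapEquiv e2.toMulEquiv).toMonoidHom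
  have hsurj : Function.Surjective ψ :=
    Matrix.ProjGenLinGroup.mk_surjective.comp (Units.mapEquiv e2.toMulEquiv).surjective
  have hker : ∀ g, ψ g = 1 ↔ ∃ c : ZMod q, g.val = c • 1 := by
    intro g
    show Matrix.ProjGenLinGroup.mk ((Units.mapEquiv e2.toMulEquiv) g) = 1 ↔ _
    rw [Matrix.ProjGenLinGroup.mk_eq_one, Matrix.GeneralLinearGroup.center_eq_range_scalar]
    constructor
    · rintro ⟨r, hr⟩
      refine ⟨r, ?_⟩
      apply e2.injective
      have h3 := congrArg Units.val hr
      have h4 : e2 g.val = ((Units.mapEquiv e2.toMulEquiv) g).val := rfl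
      rw [h4, ← h3, map_smul, map_one]
      ext i j
      simp [Matrix.GeneralLinearGroup.scalar, Matrix.scalar_apply, Matrix.diagonal_apply,
        Matrix.smul_apply, Matrix.one_apply]
    · rintro ⟨c, hc⟩
      have hc0 : c ≠ 0 := by
        rintro rfl
        rw [zero_smul] at hc
        exact g.ne_zero hc
      refine ⟨Units.mk0 c hc0, ?_⟩
      apply Units.ext
      have h4 : e2 g.val = ((Units.mapEquiv e2.toMulEquiv) g).val := rfl
      rw [← h4, hc, map_smul, map_one]
      ext i j
      simp [Matrix.GeneralLinearGroup.scalar, Matrix.scalar_apply, Matrix.diagonal_apply,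
        Matrix.smul_apply, Matrix.one_apply]
  obtain ⟨hx1, hx'1, hno, hch⟩ := quotient_main hK h1 h2 h2F hσ hx ψ hsurj hker
  obtain ⟨hinsol, hrad, hd, hed⟩ := of_chain hx1 hx'1 hno hch
  refine ⟨hfinP, ?_, hinsol, hrad, hd, hed⟩
  intro hsimple
  obtain ⟨N, hN, hNtop, hxN⟩ := exists_normal hK hx (by rw [Nat.card_zmod]; exact hq) ψ hsurj hker
  rcases hsimple.eq_bot_or_eq_top_of_normal N hN with h | h
  · rw [h, Subgroup.mem_bot, hker] at hxN
    obtain ⟨c, hc⟩ := hxN
    obtain ⟨α, s, hα, hs, hs11, hαs, hv⟩ := hx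
    refine scalar_of_coprime hα hs hs11 hαs ⟨c, ?_⟩
    have h5 := mult_pow hv 11 1
    rw [hc, mul_one] at h5
    rw [← h5, Algebra.algebraMap_eq_smul_one]
    rfl
  · exact hNtop h

/-- **Main result.**  For every prime `q ≡ 1 (mod 11)`, `q ≥ 2 ^ 22`, the group
`PGL(11, ZMod q)` is finite, not simple, insoluble, has trivial soluble radical, and its soluble
graph has two vertices in the same connected component at distance at least four; there are
infinitely many such primes. -/
theorem result :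
    (∀ q : ℕ, q.Prime → q % 11 = 1 → 2 ^ 22 ≤ q →
      Finite PGL(11, ZMod q) ∧ ¬ IsSimpleGroup PGL(11, ZMod q) ∧
      ¬ Group.IsSolvable PGL(11, ZMod q) ∧ solubleRadical PGL(11, ZMod q) = ⊥ ∧
      (∃ x y, (solubleGraph PGL(11, ZMod q)).Reachable x y ∧
        4 ≤ (solubleGraph PGL(11, ZMod q)).dist x y) ∧
      4 ≤ (solubleGraph PGL(11, ZMod q)).ediam) ∧
    {q : ℕ | q.Prime ∧ q % 11 = 1 ∧ 2 ^ 22 ≤ q}.Infinite := by
  refine ⟨main, ?_⟩
  rw [Set.infinite_iff_exists_gt]
  intro a
  obtain ⟨p, hp1, hp2, hp3⟩ := Nat.forall_exists_prime_gt_and_modEq (a + 2 ^ 22)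
    (q := 11) (a := 1) (by norm_num) (by norm_num)
  refine ⟨p, ⟨hp2, ?_, by omega⟩, by omega⟩
  have := hp3
  unfold Nat.ModEq at this
  omega

end Pool.Agent.Results.MP_259931_al.ProjectiveLinearEleven
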